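import Mathlib

/-!
Hermite's simultaneous rational approximations to `exp a`, `exp b` and a gap
principle: a vector `(q, p₁, p₂)` of integers which approximates
`(exp a, exp b)` too well does not exist in a suitable range.
-/

namespace Pool.Agent.LibHarmonic

open Polynomial Finset
open scoped Nat

/-- Coefficientwise majorisation. -/
def Maj (p q : ℤ[X]) : Prop := ∀ m, |p.coeff m| ≤ q.coeff m

lemma Maj.mul {p P q Q : ℤ[X]} (h1 : Maj p P) (h2 : Maj q Q) : Maj (p * q) (P * Q) := by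
  intro m
  rw [coeff_mul, coeff_mul]
  refine (Finset.abs_sum_le_sum_abs _ _).trans (Finset.sum_le_sum ?_)
  intro x _
  rw [abs_mul]
  exact mul_le_mul (h1 _) (h2 _) (abs_nonneg _) ((abs_nonneg _).trans (h1 _))

lemma Maj.pow {p P : ℤ[X]} (h : Maj p P) (n : ℕ) : Maj (p ^ n) (P ^ n) := by
  induction n with
  | zero =>
    intro m
    simp only [pow_zero, coeff_one]
    split_ifs <;> simp
  | succ n ih =>
    rw [pow_succ, pow_succ]
    exact ih.mul h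

lemma maj_X_sub {a b : ℕ} (hab : a ≤ b) : Maj (X - C (a : ℤ)) (X + C (b : ℤ)) := by
  intro m
  simp only [coeff_sub, coeff_add, coeff_X, coeff_C]
  rcases m with _ | _ | m
  · simp
    exact_mod_cast hab
  · simp
  · simp

lemma maj_X {b : ℕ} : Maj X (X + C (b : ℤ)) := by
  have := maj_X_sub (a := 0) (b := b) (Nat.zero_le _)
  simpa using this

/-- The auxiliary polynomial. -/
noncomputable def fpoly (a b : ℕ) (e0 e1 e2 : ℕ) : ℤ[X] :=
  X ^ e0 * (X - C (a : ℤ)) ^ e1 * (X - C (b : ℤ)) ^ e2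

lemma maj_fpoly {a b e0 e1 e2 : ℕ} (hab : a ≤ b) :
    Maj (fpoly a b e0 e1 e2) ((X + C (b : ℤ)) ^ (e0 + e1 + e2)) := by
  unfold fpoly
  rw [pow_add, pow_add]
  exact ((maj_X.pow _).mul ((maj_X_sub hab).pow _)).mul ((maj_X_sub le_rfl).pow _)

lemma eval_zero_sumIDeriv {p : ℤ[X]} {M : ℕ} (hM : p.natDegree ≤ M) :
    (sumIDeriv p).eval 0 = ∑ m ∈ range (M + 1), (m ! : ℤ) * p.coeff m := by
  rw [sumIDeriv_apply_of_le hM, eval_finsetSum]
  refine Finset.sum_congr rfl fun m _ => ?_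
  rw [← coeff_zero_eq_eval_zero, coeff_iterate_derivative]
  simp [Nat.descFactorial_self]

lemma natDegree_fpoly_le (a b e0 e1 e2 : ℕ) : (fpoly a b e0 e1 e2).natDegree ≤ e0 + e1 + e2 := by
  unfold fpoly
  refine natDegree_mul_le.trans (add_le_add (natDegree_mul_le.trans (add_le_add ?_ ?_)) ?_)
  · simp
  · exact natDegree_pow_le.trans (by rw [natDegree_X_sub_C, mul_one])
  · exact natDegree_pow_le.trans (by rw [natDegree_X_sub_C, mul_one])

lemma abs_eval_zero_le {a b e0 e1 e2 : ℕ} (hab : a ≤ b) :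
    |(((sumIDeriv (fpoly a b e0 e1 e2)).eval 0 : ℤ) : ℝ)| ≤
      ((e0 + e1 + e2)! : ℝ) * Real.exp b := by
  set M := e0 + e1 + e2 with hM
  rw [eval_zero_sumIDeriv (natDegree_fpoly_le a b e0 e1 e2)]
  push_cast
  refine (Finset.abs_sum_le_sum_abs _ _).trans ?_
  have h1 : ∀ m ∈ range (M + 1),
      |((m ! : ℝ) * (((fpoly a b e0 e1 e2).coeff m : ℤ) : ℝ))| ≤
        (M ! : ℝ) * ((b : ℝ) ^ (M - m) / (M - m)!) := by
    intro m hm
    have hm' : m ≤ M := by simpa [Nat.lt_succ_iff] using hm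
    have h2 := maj_fpoly (a := a) (b := b) (e0 := e0) (e1 := e1) (e2 := e2) hab m
    rw [coeff_X_add_C_pow] at h2
    have h3 : |(((fpoly a b e0 e1 e2).coeff m : ℤ) : ℝ)| ≤
        (b : ℝ) ^ (M - m) * (M.choose m : ℝ) := by
      rw [← Int.cast_abs]
      have := (Int.cast_le (R := ℝ)).2 h2
      refine this.trans (le_of_eq ?_)
      push_cast
      rfl
    rw [abs_mul, abs_of_nonneg (by positivity : (0 : ℝ) ≤ (m ! : ℝ))]
    refine (mul_le_mul_of_nonneg_left h3 (by positivity)).trans (le_of_eq ?_)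
    have h4 : (M.choose m : ℝ) * (m ! : ℝ) * ((M - m)! : ℝ) = (M ! : ℝ) := by
      exact_mod_cast Nat.choose_mul_factorial_mul_factorial hm'
    have h5 : ((M - m)! : ℝ) ≠ 0 := by positivity
    rw [← h4]
    field_simp
  refine (Finset.sum_le_sum h1).trans ?_
  rw [← Finset.mul_sum]
  refine mul_le_mul_of_nonneg_left ?_ (by positivity)
  have h6 := Finset.sum_range_reflect (fun i => (b : ℝ) ^ i / (i ! : ℝ)) (M + 1)
  simp only [Nat.add_sub_cancel] at h6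
  have h7 : ∑ m ∈ range (M + 1), (b : ℝ) ^ (M - m) / ((M - m)! : ℝ) =
      ∑ i ∈ range (M + 1), (b : ℝ) ^ i / (i ! : ℝ) := by
    rw [← h6]
  rw [h7]
  exact Real.sum_le_exp_of_nonneg (by positivity) _

/-- Real form of the integral identity. -/
lemma integral_identity (p : ℝ[X]) (s : ℝ) :
    ∫ x in (0 : ℝ)..s, Real.exp (-x) * p.eval x =
      (sumIDeriv p).eval 0 - Real.exp (-s) * (sumIDeriv p).eval s := by
  have h : ∀ x ∈ Set.uIcc 0 s, HasDerivAt (fun x : ℝ => -(Real.exp (-x) * (sumIDeriv p).eval x))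
      (Real.exp (-x) * p.eval x) x := by
    intro x _
    have h1 : HasDerivAt (fun x : ℝ => Real.exp (-x)) (Real.exp (-x) * (-1)) x :=
      (hasDerivAt_neg x).exp
    have h2 := (sumIDeriv p).hasDerivAt x
    have h3 := (h1.mul h2).neg
    refine h3.congr_deriv ?_
    have h4 : (sumIDeriv p).eval x = p.eval x + (derivative (sumIDeriv p)).eval x := by
      conv_lhs => rw [sumIDeriv_eq_self_add p]
      simp
    linear_combination Real.exp (-x) * h4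
  rw [intervalIntegral.integral_eq_sub_of_hasDerivAt h
    (ContinuousOn.intervalIntegrable (by fun_prop))]
  simp
  ring

lemma approx_bound {a b e0 e1 e2 : ℕ} {s : ℕ} (hab : a ≤ b) (hs : s ≤ b) :
    |Real.exp s * (((sumIDeriv (fpoly a b e0 e1 e2)).eval 0 : ℤ) : ℝ) -
      (((sumIDeriv (fpoly a b e0 e1 e2)).eval (s : ℤ) : ℤ) : ℝ)| ≤
      Real.exp b * (b : ℝ) ^ (e0 + e1 + e2 + 1) := by
  set p := fpoly a b e0 e1 e2 with hp
  have h1 := integral_identity (p.map (Int.castRingHom ℝ)) s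
  have h2 : ∀ t : ℤ, ((sumIDeriv (p.map (Int.castRingHom ℝ))).eval (t : ℝ)) =
      (((sumIDeriv p).eval t : ℤ) : ℝ) := by
    intro t
    rw [sumIDeriv_map]
    exact Polynomial.eval_intCast_map (Int.castRingHom ℝ) (sumIDeriv p) t
  have h20 := h2 0
  have h2s := h2 (s : ℤ)
  simp only [Int.cast_zero, Int.cast_natCast] at h20 h2s
  rw [h20, h2s] at h1
  have h3 : Real.exp s * (((sumIDeriv p).eval 0 : ℤ) : ℝ) - (((sumIDeriv p).eval (s : ℤ) : ℤ) : ℝ)
      = Real.exp s * ∫ x in (0 : ℝ)..s, Real.exp (-x) * (p.map (Int.castRingHom ℝ)).eval x := by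
    rw [h1, mul_sub, ← mul_assoc, ← Real.exp_add]
    simp
  rw [h3, abs_mul, abs_of_pos (Real.exp_pos _)]
  have h4 : ∀ x ∈ Set.uIoc (0 : ℝ) s,
      ‖Real.exp (-x) * (p.map (Int.castRingHom ℝ)).eval x‖ ≤ (b : ℝ) ^ (e0 + e1 + e2) := by
    intro x hx
    rw [Set.uIoc_of_le (by positivity)] at hx
    obtain ⟨hx0, hx1⟩ := hx
    have hsb : (s : ℝ) ≤ b := by exact_mod_cast hs
    have habr : (a : ℝ) ≤ b := by exact_mod_cast hab
    have ha0 : (0 : ℝ) ≤ a := by positivity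
    have e1' : (p.map (Int.castRingHom ℝ)).eval x = x ^ e0 * (x - a) ^ e1 * (x - b) ^ e2 := by
      simp [hp, fpoly]
    rw [e1', Real.norm_eq_abs, abs_mul, abs_of_pos (Real.exp_pos _), abs_mul, abs_mul, abs_pow,
      abs_pow, abs_pow]
    have b1 : |x| ≤ b := by rw [abs_of_pos hx0]; linarith
    have b2 : |x - a| ≤ b := by rw [abs_le]; constructor <;> linarith
    have b3 : |x - b| ≤ b := by rw [abs_le]; constructor <;> linarith
    have b4 : Real.exp (-x) ≤ 1 := Real.exp_le_one_iff.2 (by linarith)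
    calc Real.exp (-x) * (|x| ^ e0 * |x - a| ^ e1 * |x - b| ^ e2)
        ≤ 1 * ((b : ℝ) ^ e0 * (b : ℝ) ^ e1 * (b : ℝ) ^ e2) := by
          refine mul_le_mul b4 ?_ (by positivity) (by norm_num)
          gcongr
      _ = (b : ℝ) ^ (e0 + e1 + e2) := by rw [one_mul, pow_add, pow_add]
  have h5 := intervalIntegral.norm_integral_le_of_norm_le_const h4
  rw [sub_zero, abs_of_nonneg (by positivity : (0 : ℝ) ≤ s), Real.norm_eq_abs] at h5
  calc Real.exp s * |∫ x in (0 : ℝ)..s, Real.exp (-x) * (p.map (Int.castRingHom ℝ)).eval x|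
      ≤ Real.exp b * ((b : ℝ) ^ (e0 + e1 + e2) * b) := by
        refine mul_le_mul ?_ (h5.trans ?_) (abs_nonneg _) (Real.exp_pos _).le
        · exact Real.exp_le_exp.2 (by exact_mod_cast hs)
        · refine mul_le_mul_of_nonneg_left (by exact_mod_cast hs) (by positivity)
    _ = Real.exp b * (b : ℝ) ^ (e0 + e1 + e2 + 1) := by rw [pow_succ]

lemma exists_quot {p p' : ℤ[X]} {r : ℤ} {n : ℕ} (h : p = (X - C r) ^ n * p') :
    ∃ A : ℤ, (sumIDeriv p).eval r = (n ! : ℤ) * A ∧ A ≡ p'.eval r [ZMOD (n + 1 : ℕ)] := by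
  obtain ⟨gp, -, hgp⟩ := eval_sumIDeriv_of_pos p (q := n + 1) (Nat.succ_pos n)
  refine ⟨p'.eval r + (n + 1) * gp.eval r, ?_, ?_⟩
  · rw [hgp r (by simpa using h)]
    simp only [Nat.add_sub_cancel, nsmul_eq_mul, Nat.factorial_succ]
    push_cast
    ring
  · exact Int.modEq_iff_dvd.2 ⟨-gp.eval r, by push_cast; ring⟩

/-- One approximation vector of level `n`. -/
theorem exists_vector (a b n d0 d1 d2 : ℕ) (hab : a ≤ b) :
    ∃ A0 A1 A2 : ℤ,
      |(A0 : ℝ)| ≤ Real.exp b * ((n + d0 + (n + d1) + (n + d2))! : ℝ) / (n ! : ℝ) ∧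
      |Real.exp a * A0 - A1| ≤ Real.exp b * (b : ℝ) ^ (n + d0 + (n + d1) + (n + d2) + 1) / (n ! : ℝ) ∧
      |Real.exp b * A0 - A2| ≤ Real.exp b * (b : ℝ) ^ (n + d0 + (n + d1) + (n + d2) + 1) / (n ! : ℝ) ∧
      A0 ≡ 0 ^ d0 * (-(a : ℤ)) ^ (n + d1) * (-(b : ℤ)) ^ (n + d2) [ZMOD (n + 1 : ℕ)] ∧
      A1 ≡ (a : ℤ) ^ (n + d0) * 0 ^ d1 * ((a : ℤ) - b) ^ (n + d2) [ZMOD (n + 1 : ℕ)] ∧
      A2 ≡ (b : ℤ) ^ (n + d0) * ((b : ℤ) - a) ^ (n + d1) * 0 ^ d2 [ZMOD (n + 1 : ℕ)] := by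
  set p := fpoly a b (n + d0) (n + d1) (n + d2) with hp
  obtain ⟨A0, hA0, hm0⟩ := exists_quot (p := p) (r := 0) (n := n)
    (p' := X ^ d0 * (X - C (a : ℤ)) ^ (n + d1) * (X - C (b : ℤ)) ^ (n + d2)) (by
      rw [hp, fpoly]; simp only [map_zero, sub_zero]; ring)
  obtain ⟨A1, hA1, hm1⟩ := exists_quot (p := p) (r := a) (n := n)
    (p' := X ^ (n + d0) * (X - C (a : ℤ)) ^ d1 * (X - C (b : ℤ)) ^ (n + d2)) (by
      rw [hp, fpoly]; ring)
  obtain ⟨A2, hA2, hm2⟩ := exists_quot (p := p) (r := b) (n := n)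
    (p' := X ^ (n + d0) * (X - C (a : ℤ)) ^ (n + d1) * (X - C (b : ℤ)) ^ d2) (by
      rw [hp, fpoly]; ring)
  have hn : (0 : ℝ) < (n ! : ℝ) := by positivity
  refine ⟨A0, A1, A2, ?_, ?_, ?_, ?_, ?_, ?_⟩
  · have h := abs_eval_zero_le (a := a) (b := b) (e0 := n + d0) (e1 := n + d1) (e2 := n + d2) hab
    rw [← hp, hA0] at h
    push_cast at h
    rw [abs_mul, abs_of_pos hn] at h
    rw [le_div_iff₀ hn]
    linarith
  · have h := approx_bound (a := a) (b := b) (e0 := n + d0) (e1 := n + d1) (e2 := n + d2)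
      (s := a) hab hab
    rw [← hp, hA0, hA1] at h
    push_cast at h
    rw [le_div_iff₀ hn]
    refine le_trans (le_of_eq ?_) h
    rw [← abs_of_pos hn, ← abs_mul, abs_of_pos hn]
    congr 1
    ring
  · have h := approx_bound (a := a) (b := b) (e0 := n + d0) (e1 := n + d1) (e2 := n + d2)
      (s := b) hab le_rfl
    rw [← hp, hA0, hA2] at h
    push_cast at h
    rw [le_div_iff₀ hn]
    refine le_trans (le_of_eq ?_) h
    rw [← abs_of_pos hn, ← abs_mul, abs_of_pos hn]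
    congr 1
    ring
  · simpa using hm0
  · simpa using hm1
  · simpa using hm2

/-- A `3 × 3` determinant. -/
def det3 {R : Type*} [CommRing R] (x0 x1 x2 y0 y1 y2 z0 z1 z2 : R) : R :=
  x0 * (y1 * z2 - y2 * z1) - x1 * (y0 * z2 - y2 * z0) + x2 * (y0 * z1 - y1 * z0)

lemma det3_shift {R : Type*} [CommRing R] (u v x0 x1 x2 y0 y1 y2 z0 z1 z2 : R) :
    det3 x0 x1 x2 y0 y1 y2 z0 z1 z2 =
      det3 x0 (x1 - u * x0) (x2 - v * x0) y0 (y1 - u * y0) (y2 - v * y0)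
        z0 (z1 - u * z0) (z2 - v * z0) := by
  unfold det3; ring

lemma det3_bound {x0 x1 x2 y0 y1 y2 z0 z1 z2 q ε B δ : ℝ}
    (hq : |x0| ≤ q) (hx1 : |x1| ≤ ε) (hx2 : |x2| ≤ ε)
    (hy0 : |y0| ≤ B) (hy1 : |y1| ≤ δ) (hy2 : |y2| ≤ δ)
    (hz0 : |z0| ≤ B) (hz1 : |z1| ≤ δ) (hz2 : |z2| ≤ δ) :
    |det3 x0 x1 x2 y0 y1 y2 z0 z1 z2| ≤ 2 * q * δ ^ 2 + 4 * ε * B * δ := by
  have q0 : 0 ≤ q := (abs_nonneg _).trans hq
  have e0 : 0 ≤ ε := (abs_nonneg _).trans hx1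
  have B0 : 0 ≤ B := (abs_nonneg _).trans hy0
  have d0 : 0 ≤ δ := (abs_nonneg _).trans hy1
  have m1 : ∀ {s t u v S T U V : ℝ}, |s| ≤ S → |t| ≤ T → |u| ≤ U → |v| ≤ V →
      |s * t - u * v| ≤ S * T + U * V := by
    intro s t u v S T U V hs ht hu hv
    have hS : 0 ≤ S := (abs_nonneg _).trans hs
    have hU : 0 ≤ U := (abs_nonneg _).trans hu
    calc |s * t - u * v| ≤ |s * t| + |u * v| := abs_sub _ _
      _ ≤ S * T + U * V := by
        rw [abs_mul, abs_mul]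
        exact add_le_add (mul_le_mul hs ht (abs_nonneg _) hS)
          (mul_le_mul hu hv (abs_nonneg _) hU)
  have a1 := m1 hy1 hz2 hy2 hz1
  have a2 := m1 hy0 hz2 hy2 hz0
  have a3 := m1 hy0 hz1 hy1 hz0
  unfold det3
  calc |x0 * (y1 * z2 - y2 * z1) - x1 * (y0 * z2 - y2 * z0) + x2 * (y0 * z1 - y1 * z0)|
      ≤ |x0 * (y1 * z2 - y2 * z1)| + |x1 * (y0 * z2 - y2 * z0)| + |x2 * (y0 * z1 - y1 * z0)| := by
        refine (abs_add_le _ _).trans ?_
        have := abs_sub (x0 * (y1 * z2 - y2 * z1)) (x1 * (y0 * z2 - y2 * z0))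
        linarith
    _ ≤ q * (δ * δ + δ * δ) + ε * (B * δ + δ * B) + ε * (B * δ + δ * B) := by
        rw [abs_mul, abs_mul, abs_mul]
        refine add_le_add (add_le_add ?_ ?_) ?_
        · exact mul_le_mul hq a1 (abs_nonneg _) q0
        · exact mul_le_mul hx1 a2 (abs_nonneg _) e0
        · exact mul_le_mul hx2 a3 (abs_nonneg _) e0
    _ = 2 * q * δ ^ 2 + 4 * ε * B * δ := by ring

/-- Gap principle: there is no integer vector `(q, p₁, p₂)`, `q > 0`, that approximates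
`(exp a, exp b)` within `ε` if `q` lies in the range described by the last hypothesis. -/
theorem gap_principle {a b n : ℕ} (hab : a < b) (hn : 0 < n)
    (hcop : Nat.Coprime (n + 1) (a * b * (b - a))) {q p1 p2 : ℤ} (hq : 0 < q) {ε : ℝ}
    (h1 : |Real.exp a * q - p1| ≤ ε) (h2 : |Real.exp b * q - p2| ≤ ε)
    (hsmall : 2 * (q : ℝ) * (Real.exp b * (b : ℝ) ^ (3 * n + 3) / (n ! : ℝ)) ^ 2 +
      4 * ε * (Real.exp b * ((3 * n + 2)! : ℝ) / (n ! : ℝ)) *
        (Real.exp b * (b : ℝ) ^ (3 * n + 3) / (n ! : ℝ)) < 1) : False := by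
  obtain ⟨A0, A1, A2, hA0, hA1, hA2, cA0, cA1, cA2⟩ := exists_vector a b n 0 1 1 hab.le
  obtain ⟨B0, B1, B2, hB0, hB1, hB2, cB0, cB1, cB2⟩ := exists_vector a b n 1 0 1 hab.le
  obtain ⟨C0, C1, C2, hC0, hC1, hC2, cC0, cC1, cC2⟩ := exists_vector a b n 1 1 0 hab.le
  rw [show n + 0 + (n + 1) + (n + 1) = 3 * n + 2 by ring] at hA0
  rw [show n + 1 + (n + 0) + (n + 1) = 3 * n + 2 by ring] at hB0
  rw [show n + 1 + (n + 1) + (n + 0) = 3 * n + 2 by ring] at hC0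
  rw [show n + 0 + (n + 1) + (n + 1) + 1 = 3 * n + 3 by ring] at hA1 hA2
  rw [show n + 1 + (n + 0) + (n + 1) + 1 = 3 * n + 3 by ring] at hB1 hB2
  rw [show n + 1 + (n + 1) + (n + 0) + 1 = 3 * n + 3 by ring] at hC1 hC2
  set δ := Real.exp b * (b : ℝ) ^ (3 * n + 3) / (n ! : ℝ) with hδ
  set B := Real.exp b * ((3 * n + 2)! : ℝ) / (n ! : ℝ) with hB
  have hqR : |(q : ℝ)| ≤ q := by rw [abs_of_pos (by exact_mod_cast hq)]
  have flip : ∀ {e : ℝ} {x y : ℤ} {t : ℝ}, |e * x - y| ≤ t → |(y : ℝ) - e * x| ≤ t := by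
    intro e x y t h
    rw [abs_sub_comm]; exact h
  have hsmall' : 2 * (q : ℝ) * δ ^ 2 + 4 * ε * B * δ < 1 := hsmall
  have zero_of : ∀ z : ℤ, |(z : ℝ)| < 1 → z = 0 := by
    intro z hz
    have : |z| < 1 := by
      have h' : ((|z| : ℤ) : ℝ) < ((1 : ℤ) : ℝ) := by push_cast; exact hz
      exact_mod_cast h'
    exact Int.abs_lt_one_iff.1 this
  have D0 : det3 q p1 p2 B0 B1 B2 C0 C1 C2 = 0 := by
    apply zero_of
    have hc : ((det3 q p1 p2 B0 B1 B2 C0 C1 C2 : ℤ) : ℝ) =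
        det3 (q : ℝ) p1 p2 B0 B1 B2 C0 C1 C2 := by unfold det3; push_cast; ring
    rw [hc, det3_shift (Real.exp a) (Real.exp b)]
    exact (det3_bound hqR (flip h1) (flip h2) hB0 (flip hB1) (flip hB2) hC0 (flip hC1)
      (flip hC2)).trans_lt hsmall'
  have D1 : det3 q p1 p2 A0 A1 A2 C0 C1 C2 = 0 := by
    apply zero_of
    have hc : ((det3 q p1 p2 A0 A1 A2 C0 C1 C2 : ℤ) : ℝ) =
        det3 (q : ℝ) p1 p2 A0 A1 A2 C0 C1 C2 := by unfold det3; push_cast; ring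
    rw [hc, det3_shift (Real.exp a) (Real.exp b)]
    exact (det3_bound hqR (flip h1) (flip h2) hA0 (flip hA1) (flip hA2) hC0 (flip hC1)
      (flip hC2)).trans_lt hsmall'
  have D2 : det3 q p1 p2 A0 A1 A2 B0 B1 B2 = 0 := by
    apply zero_of
    have hc : ((det3 q p1 p2 A0 A1 A2 B0 B1 B2 : ℤ) : ℝ) =
        det3 (q : ℝ) p1 p2 A0 A1 A2 B0 B1 B2 := by unfold det3; push_cast; ring
    rw [hc, det3_shift (Real.exp a) (Real.exp b)]
    exact (det3_bound hqR (flip h1) (flip h2) hA0 (flip hA1) (flip hA2) hB0 (flip hB1)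
      (flip hB2)).trans_lt hsmall'
  -- the full determinant
  have hdet : det3 A0 A1 A2 B0 B1 B2 C0 C1 C2 = 0 := by
    have hid : q * det3 A0 A1 A2 B0 B1 B2 C0 C1 C2 =
        A0 * det3 q p1 p2 B0 B1 B2 C0 C1 C2 - B0 * det3 q p1 p2 A0 A1 A2 C0 C1 C2 +
        C0 * det3 q p1 p2 A0 A1 A2 B0 B1 B2 := by
      unfold det3; ring
    rw [D0, D1, D2] at hid
    have : q * det3 A0 A1 A2 B0 B1 B2 C0 C1 C2 = 0 := by rw [hid]; ring
    exact (mul_eq_zero.1 this).resolve_left hq.ne'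
  -- congruences
  simp only [pow_zero, pow_one, one_mul, mul_one, zero_mul, mul_zero, add_zero] at cA0 cA1 cA2 cB0 cB1 cB2 cC0 cC1 cC2
  have hmod : det3 A0 A1 A2 B0 B1 B2 C0 C1 C2 ≡
      ((-(a : ℤ)) ^ (n + 1) * (-(b : ℤ)) ^ (n + 1)) *
        ((a : ℤ) ^ (n + 1) * ((a : ℤ) - b) ^ (n + 1)) *
        ((b : ℤ) ^ (n + 1) * ((b : ℤ) - a) ^ (n + 1)) [ZMOD (n + 1 : ℕ)] := by
    have e : det3 A0 A1 A2 B0 B1 B2 C0 C1 C2 =
      A0 * (B1 * C2 - B2 * C1) - A1 * (B0 * C2 - B2 * C0) + A2 * (B0 * C1 - B1 * C0) := rfl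
    rw [e]
    have t1 := (cA0.mul ((cB1.mul cC2).sub (cB2.mul cC1)))
    have t2 := (cA1.mul ((cB0.mul cC2).sub (cB2.mul cC0)))
    have t3 := (cA2.mul ((cB0.mul cC1).sub (cB1.mul cC0)))
    have t := (t1.sub t2).add t3
    refine t.trans ?_
    unfold Int.ModEq
    congr 1
    ring
  rw [hdet] at hmod
  have hdvd := (Int.modEq_zero_iff_dvd.1 hmod.symm)
  -- coprimality
  have hca : IsCoprime ((n + 1 : ℕ) : ℤ) (a : ℤ) := by
    rw [Nat.isCoprime_iff_coprime]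
    exact (Nat.Coprime.coprime_mul_right_right (Nat.Coprime.coprime_mul_right_right hcop))
  have hcb : IsCoprime ((n + 1 : ℕ) : ℤ) (b : ℤ) := by
    rw [Nat.isCoprime_iff_coprime]
    exact (Nat.Coprime.coprime_mul_left_right (Nat.Coprime.coprime_mul_right_right hcop))
  have hcd : IsCoprime ((n + 1 : ℕ) : ℤ) ((b : ℤ) - a) := by
    have := (Nat.isCoprime_iff_coprime (m := n + 1) (n := b - a)).2
      (Nat.Coprime.coprime_mul_left_right hcop)
    rwa [Nat.cast_sub hab.le] at this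
  have hcd' : IsCoprime ((n + 1 : ℕ) : ℤ) ((a : ℤ) - b) := by
    have := hcd.neg_right
    rwa [neg_sub] at this
  have hall : IsCoprime ((n + 1 : ℕ) : ℤ)
      (((-(a : ℤ)) ^ (n + 1) * (-(b : ℤ)) ^ (n + 1)) *
        ((a : ℤ) ^ (n + 1) * ((a : ℤ) - b) ^ (n + 1)) *
        ((b : ℤ) ^ (n + 1) * ((b : ℤ) - a) ^ (n + 1))) :=
    ((hca.neg_right.pow_right.mul_right hcb.neg_right.pow_right).mul_right
      (hca.pow_right.mul_right hcd'.pow_right)).mul_right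
      (hcb.pow_right.mul_right hcd.pow_right)
  have hunit : IsUnit ((n + 1 : ℕ) : ℤ) := hall.isUnit_of_dvd' dvd_rfl hdvd
  rw [Int.isUnit_iff] at hunit
  rcases hunit with h | h
  · have : n + 1 = 1 := by exact_mod_cast h
    omega
  · have : (0 : ℤ) ≤ ((n + 1 : ℕ) : ℤ) := by positivity
    omega

end Pool.Agent.LibHarmonic
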