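import Mathlib
import Pool.Agent.LibHarmonic.Hermite

/-!
From harmonic numbers to odd integers close to `2 exp (k - γ)`.
-/

namespace Pool.Agent.LibHarmonic

open Filter Topology

lemma two_mul_le_log_sub {x : ℝ} (h0 : 0 ≤ x) (h1 : x < 1) :
    2 * x ≤ Real.log (1 + x) - Real.log (1 - x) := by
  have h := Real.hasSum_log_sub_log_of_abs_lt_one (x := x) (by rw [abs_of_nonneg h0]; exact h1)
  have h2 := h.summable.sum_le_tsum {0} (fun i _ => by positivity)
  rw [h.tsum_eq] at h2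
  simpa using h2

/-- `H_n - log (n + 1/2)` is decreasing. -/
lemma antitone_harmonic_half :
    Antitone (fun n : ℕ => ((harmonic n : ℚ) : ℝ) - Real.log ((n : ℝ) + 1 / 2)) := by
  refine antitone_nat_of_succ_le fun n => ?_
  rw [harmonic_succ]
  push_cast
  have hx : (0 : ℝ) ≤ 1 / (2 * ((n : ℝ) + 1)) := by positivity
  have hx1 : 1 / (2 * ((n : ℝ) + 1)) < 1 := by
    rw [div_lt_one (by positivity)]
    have : (0 : ℝ) ≤ n := by positivity
    linarith
  have h := two_mul_le_log_sub hx hx1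
  have e1 : 1 + 1 / (2 * ((n : ℝ) + 1)) = ((n : ℝ) + 1 + 1 / 2) / ((n : ℝ) + 1) := by
    field_simp
  have e2 : 1 - 1 / (2 * ((n : ℝ) + 1)) = ((n : ℝ) + 1 / 2) / ((n : ℝ) + 1) := by
    field_simp; ring
  rw [e1, e2, Real.log_div (by positivity) (by positivity),
    Real.log_div (by positivity) (by positivity)] at h
  have e3 : 2 * (1 / (2 * ((n : ℝ) + 1))) = ((n : ℝ) + 1)⁻¹ := by
    field_simp
  rw [e3] at h
  linarith

lemma tendsto_harmonic_half :
    Tendsto (fun n : ℕ => ((harmonic n : ℚ) : ℝ) - Real.log ((n : ℝ) + 1 / 2)) atTop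
      (𝓝 Real.eulerMascheroniConstant) := by
  refine tendsto_of_tendsto_of_tendsto_of_le_of_le' Real.tendsto_harmonic_sub_log_add_one
    Real.tendsto_harmonic_sub_log ?_ ?_
  · filter_upwards with n
    have : Real.log ((n : ℝ) + 1 / 2) ≤ Real.log ((n : ℝ) + 1) :=
      Real.log_le_log (by positivity) (by linarith)
    linarith
  · filter_upwards [eventually_gt_atTop 0] with n hn
    have hn' : (0 : ℝ) < n := by exact_mod_cast hn
    have : Real.log (n : ℝ) ≤ Real.log ((n : ℝ) + 1 / 2) :=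
      Real.log_le_log hn' (by linarith)
    linarith

lemma gamma_add_log_half_le (n : ℕ) :
    Real.eulerMascheroniConstant + Real.log ((n : ℝ) + 1 / 2) ≤ ((harmonic n : ℚ) : ℝ) := by
  have := antitone_harmonic_half.le_of_tendsto tendsto_harmonic_half n
  linarith

lemma log_le_half_sub_inv {y : ℝ} (hy : 1 ≤ y) : Real.log y ≤ (y - y⁻¹) / 2 := by
  have h := Real.self_le_sinh_iff.2 (Real.log_nonneg hy)
  rwa [Real.sinh_log (by linarith)] at h

/-- `H_n - log n - 1/(2n)` is increasing. -/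
lemma monotone_harmonic_sub :
    Monotone (fun n : ℕ => ((harmonic (n + 1) : ℚ) : ℝ) - Real.log ((n : ℝ) + 1) -
      1 / (2 * ((n : ℝ) + 1))) := by
  refine monotone_nat_of_le_succ fun n => ?_
  rw [harmonic_succ (n + 1)]
  push_cast
  have hn : (0 : ℝ) ≤ n := by positivity
  have h := log_le_half_sub_inv (y := ((n : ℝ) + 1 + 1) / ((n : ℝ) + 1))
    (by rw [le_div_iff₀ (by positivity)]; linarith)
  rw [Real.log_div (by positivity) (by positivity)] at h
  have e : (((n : ℝ) + 1 + 1) / ((n : ℝ) + 1) - (((n : ℝ) + 1 + 1) / ((n : ℝ) + 1))⁻¹) / 2 =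
      ((n : ℝ) + 1 + 1)⁻¹ + 1 / (2 * ((n : ℝ) + 1)) - 1 / (2 * ((n : ℝ) + 1 + 1)) := by
    field_simp; ring
  rw [e] at h
  linarith

lemma tendsto_harmonic_sub' :
    Tendsto (fun n : ℕ => ((harmonic (n + 1) : ℚ) : ℝ) - Real.log ((n : ℝ) + 1) -
      1 / (2 * ((n : ℝ) + 1))) atTop (𝓝 Real.eulerMascheroniConstant) := by
  have h1 := Real.tendsto_harmonic_sub_log.comp (tendsto_add_atTop_nat 1)
  have h2 : Tendsto (fun n : ℕ => 1 / (2 * ((n : ℝ) + 1))) atTop (𝓝 0) := by
    have h3 := (tendsto_one_div_add_atTop_nhds_zero_nat (𝕜 := ℝ)).const_mul (1 / 2)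
    rw [mul_zero] at h3
    refine h3.congr fun n => ?_
    field_simp
  have h4 := h1.sub h2
  rw [sub_zero] at h4
  refine h4.congr fun n => ?_
  simp

lemma harmonic_le (n : ℕ) (hn : 1 ≤ n) :
    ((harmonic n : ℚ) : ℝ) ≤ Real.eulerMascheroniConstant + Real.log n + 1 / (2 * (n : ℝ)) := by
  obtain ⟨m, rfl⟩ : ∃ m, n = m + 1 := ⟨n - 1, by omega⟩
  have := monotone_harmonic_sub.ge_of_tendsto tendsto_harmonic_sub' m
  push_cast
  linarith

/-- The exceptional `k`: those for which `n_k` is not within `1/2` of `exp (k - γ)`. -/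
def Exceptional (k : ℕ) : Prop :=
  ∃ n : ℕ, ((harmonic (n - 1) : ℚ) : ℝ) < k ∧ (k : ℝ) < ((harmonic n : ℚ) : ℝ) ∧
    1 / 2 ≤ |(n : ℝ) - Real.exp ((k : ℝ) - Real.eulerMascheroniConstant)|

lemma Exceptional.exists_int {k : ℕ} (hk1 : 1 ≤ k) (hk : Exceptional k) :
    ∃ q : ℤ, 0 < q ∧ (q : ℝ) ≤ 2 * Real.exp ((k : ℝ) - Real.eulerMascheroniConstant) ∧
      2 * Real.exp ((k : ℝ) - Real.eulerMascheroniConstant) ≤
        q + 4 / (2 * Real.exp ((k : ℝ) - Real.eulerMascheroniConstant)) := by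
  obtain ⟨n, h1, h2, h3⟩ := hk
  have hk1' : (1 : ℝ) ≤ k := by exact_mod_cast hk1
  have hn : 2 ≤ n := by
    by_contra hn
    have : n = 0 ∨ n = 1 := by omega
    rcases this with rfl | rfl
    · simp at h2
      linarith
    · simp at h2
      linarith
  have hn' : (2 : ℝ) ≤ n := by exact_mod_cast hn
  set x := Real.exp ((k : ℝ) - Real.eulerMascheroniConstant) with hx
  -- lower bound: x > n - 1/2
  have l1 : (n : ℝ) - 1 / 2 < x := by
    have h := gamma_add_log_half_le (n - 1)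
    have hc : ((n - 1 : ℕ) : ℝ) + 1 / 2 = n - 1 / 2 := by
      rw [Nat.cast_sub (by omega)]; push_cast; ring
    rw [hc] at h
    have h' : Real.log ((n : ℝ) - 1 / 2) < k - Real.eulerMascheroniConstant := by linarith
    have := (Real.log_lt_iff_lt_exp (by linarith)).1 h'
    exact this
  have l2 : (n : ℝ) + 1 / 2 ≤ x := by
    rcases le_abs.1 h3 with h | h
    · linarith
    · linarith
  have l3 : x ≤ n / (1 - 1 / (2 * (n : ℝ))) := by
    have h := harmonic_le n (by omega)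
    have h' : (k : ℝ) - Real.eulerMascheroniConstant ≤ Real.log n + 1 / (2 * (n : ℝ)) := by
      linarith
    have h4 : x ≤ Real.exp (Real.log n + 1 / (2 * (n : ℝ))) := Real.exp_le_exp.2 h'
    rw [Real.exp_add, Real.exp_log (by linarith)] at h4
    have h5 := Real.exp_bound_div_one_sub_of_interval (x := 1 / (2 * (n : ℝ))) (by positivity)
      (by rw [div_lt_one (by positivity)]; linarith)
    calc x ≤ (n : ℝ) * Real.exp (1 / (2 * (n : ℝ))) := h4
      _ ≤ (n : ℝ) * (1 / (1 - 1 / (2 * (n : ℝ)))) := by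
        exact mul_le_mul_of_nonneg_left h5 (by linarith)
      _ = n / (1 - 1 / (2 * (n : ℝ))) := by rw [mul_one_div]
  have l4 : (n : ℝ) / (1 - 1 / (2 * (n : ℝ))) = n + 1 / 2 + 1 / (2 * (2 * n - 1)) := by
    have : (2 * (n : ℝ) - 1) ≠ 0 := by linarith
    have h7 : (1 - 1 / (2 * (n : ℝ))) = (2 * n - 1) / (2 * n) := by field_simp
    have h10 : 1 / (2 * (2 * (n : ℝ) - 1)) * (2 * (n : ℝ) - 1) = 1 / 2 := by
      generalize hw : (2 * (n : ℝ) - 1) = w at this
      field_simp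
    rw [h7, div_div_eq_mul_div, div_eq_iff this]
    linear_combination -h10
  rw [l4] at l3
  have h9 : 2 * (1 / (2 * (2 * (n : ℝ) - 1))) = 1 / (2 * (n : ℝ) - 1) := by
    rw [mul_one_div, mul_comm (2 : ℝ) (2 * (n : ℝ) - 1), ← div_div]
    ring
  have h8 : 1 / (2 * (n : ℝ) - 1) ≤ 1 / 3 :=
    one_div_le_one_div_of_le (by norm_num) (by linarith)
  refine ⟨2 * n + 1, by positivity, ?_, ?_⟩
  · push_cast
    linarith
  · push_cast
    have h11 : 2 * x ≤ 2 * n + 1 + 1 / (2 * (n : ℝ) - 1) := by linarith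
    have h12 : 1 / (2 * (n : ℝ) - 1) ≤ 4 / (2 * x) := by
      rw [div_le_div_iff₀ (by linarith) (by linarith)]
      linarith
    linarith

end Pool.Agent.LibHarmonic
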