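import Mathlib
import Pool.Agent.LibHarmonic.Except

/-!
At most two exceptional integers in a window `[k, k + k ^ η]`, `η < 1/9`, `k` large.
-/

namespace Pool.Agent.LibHarmonic

open Filter Topology Asymptotics
open scoped Nat

lemma ev_rpow_le {r c : ℝ} (hr : r < 1) (hc : 0 < c) : ∀ᶠ t : ℝ in atTop, t ^ r ≤ c * t := by
  have h := tendsto_rpow_neg_atTop (y := 1 - r) (by linarith)
  filter_upwards [h.eventually (gt_mem_nhds hc), eventually_gt_atTop 0] with t ht ht0
  have e : t ^ r = t ^ (-(1 - r)) * t := by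
    nth_rewrite 3 [← Real.rpow_one t]
    rw [← Real.rpow_add ht0]
    congr 1
    ring
  rw [e]
  exact mul_le_mul_of_nonneg_right ht.le ht0.le

lemma ev_log_le_rpow {r : ℝ} (hr : 0 < r) : ∀ᶠ t : ℝ in atTop, Real.log t ≤ t ^ r := by
  have h := (isLittleO_log_rpow_atTop hr).def (c := 1) one_pos
  filter_upwards [h, eventually_gt_atTop 0] with t ht ht0
  calc Real.log t ≤ ‖Real.log t‖ := le_abs_self _
    _ ≤ 1 * ‖t ^ r‖ := ht
    _ = t ^ r := by rw [one_mul, Real.norm_of_nonneg (by positivity)]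

lemma ev_log_le_mul {c : ℝ} (hc : 0 < c) : ∀ᶠ t : ℝ in atTop, Real.log t ≤ c * t := by
  have h := (Real.isLittleO_log_id_atTop).def (c := c) hc
  filter_upwards [h, eventually_gt_atTop 0] with t ht ht0
  calc Real.log t ≤ ‖Real.log t‖ := le_abs_self _
    _ ≤ c * ‖t‖ := ht
    _ = c * t := by rw [Real.norm_of_nonneg ht0.le]

/-- `t log t - t` is monotone on `[1, ∞)`. -/
lemma mul_log_sub_mono {x y : ℝ} (hx : 1 ≤ x) (hxy : x ≤ y) :
    x * Real.log x - x ≤ y * Real.log y - y := by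
  have hx0 : 0 < x := by linarith
  have hy0 : 0 < y := by linarith
  have h1 : Real.log x ≥ 0 := Real.log_nonneg hx
  have h2 : Real.log (x / y) ≤ x / y - 1 := Real.log_le_sub_one_of_pos (by positivity)
  rw [Real.log_div hx0.ne' hy0.ne'] at h2
  have h3 : y * (x / y - 1) = x - y := by field_simp
  have h4 : y * (Real.log x - Real.log y) ≤ x - y := by
    rw [← h3]; exact mul_le_mul_of_nonneg_left h2 hy0.le
  nlinarith

lemma core {t L c x n θ η κ s l : ℝ} (hη0 : 0 < η) (hη1 : η < 1 / 9) (hθ1 : 2 / 3 ≤ θ)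
    (hθ2 : θ ≤ 3 / 4) (hκ0 : 0 < κ)
    (id1 : 2 * θ - 6 * η * θ - 1 = κ) (id2 : 1 - θ * (1 + 3 * η) = κ)
    (ht0 : 0 < t) (hc1 : 1 ≤ c) (hLc : L ≤ c) (hL66 : 66 ≤ L)
    (hcκ : c * c ≤ κ / 100 * t) (hct : c * c ≤ 1 / 100 * t) (hs : s ≤ κ / 100 * t)
    (hxL : x * L = θ * t) (hn1 : x ≤ n) (hn2 : n ≤ x + c) (hlogx : Real.log x = Real.log θ + L - l)
    (hl : l ≤ κ / (100 * θ) * L) (hlθ : 1 - Real.log θ ≤ κ / (100 * θ) * L)
    (htκ : 100 ≤ t * κ) (ht100 : 100 ≤ t) (hLt : Real.log t = L) :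
    1 ≤ x ∧ Real.log 8 + t + 2 * s + (6 * n + 6) * (η * L) < 2 * (n * Real.log n - n) ∧
      Real.log 64 + 3 * s + (3 * n + 2) * Real.log (3 * n + 2) +
        (3 * n + 3) * (η * L) < (t - 1) + 2 * (n * Real.log n - n) := by
  have hL0 : 0 < L := by linarith
  have hθ0 : 0 < θ := by linarith
  have hcL : c * L ≤ c * c := mul_le_mul_of_nonneg_left hLc (by linarith)
  have hcc : c ≤ c * c := by nlinarith only [hc1]
  have hLcc : L ≤ c * c := hLc.trans hcc
  -- x is large
  have hx1 : 1 ≤ x := by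
    by_contra hx
    push Not at hx
    have h1 : x * L ≤ 1 * L := mul_le_mul_of_nonneg_right hx.le hL0.le
    have h2 : 2 / 3 * t ≤ θ * t := mul_le_mul_of_nonneg_right hθ1 ht0.le
    linarith
  have hx0 : 0 < x := by linarith
  have hn0 : 0 < n := by linarith
  -- lower bound of the main term
  have hmain : 2 * θ * t - 4 * (κ / 100 * t) ≤ 2 * (n * Real.log n - n) := by
    have h1 := mul_log_sub_mono hx1 hn1
    have h2 : x * Real.log x - x = θ * t - x * (l + (1 - Real.log θ)) := by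
      rw [hlogx, ← hxL]; ring
    have h3 : x * (l + (1 - Real.log θ)) ≤ x * (2 * (κ / (100 * θ) * L)) :=
      mul_le_mul_of_nonneg_left (by linarith) hx0.le
    have h4 : x * (2 * (κ / (100 * θ) * L)) = 2 * (κ / 100 * t) := by
      have : x * (2 * (κ / (100 * θ) * L)) = (x * L) * (2 * (κ / (100 * θ))) := by ring
      rw [this, hxL]
      field_simp
    linarith
  -- upper bounds of products with n
  have hnL : n * L ≤ θ * t + c * c := by
    have : n * L ≤ (x + c) * L := mul_le_mul_of_nonneg_right hn2 hL0.le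
    nlinarith only [this, hxL, hcL]
  have hnL0 : 0 ≤ n * L := by positivity
  have hηnL : η * (n * L) ≤ η * (θ * t) + 1 / 9 * (c * c) := by
    have h1 : η * (n * L) ≤ η * (θ * t + c * c) := mul_le_mul_of_nonneg_left hnL hη0.le
    have h2 : η * (c * c) ≤ 1 / 9 * (c * c) :=
      mul_le_mul_of_nonneg_right hη1.le (by positivity)
    linarith
  have hηL : η * L ≤ 1 / 9 * (c * c) := by
    have h1 : η * L ≤ 1 / 9 * L := mul_le_mul_of_nonneg_right hη1.le hL0.le
    linarith
  have e1 : (6 * n + 6) * (η * L) = 6 * (η * (n * L)) + 6 * (η * L) := by ring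
  have e2 : (3 * n + 3) * (η * L) = 3 * (η * (n * L)) + 3 * (η * L) := by ring
  have l8 : Real.log 8 ≤ 3 := by
    have : Real.log 8 = 3 * Real.log 2 := by
      rw [show (8 : ℝ) = 2 ^ (3 : ℕ) by norm_num, Real.log_pow]; norm_num
    have := Real.log_two_lt_d9
    linarith
  have l64 : Real.log 64 ≤ 5 := by
    have : Real.log 64 = 6 * Real.log 2 := by
      rw [show (64 : ℝ) = 2 ^ (6 : ℕ) by norm_num, Real.log_pow]; norm_num
    have := Real.log_two_lt_d9
    linarith
  have i1 : 2 * θ * t - 6 * (η * (θ * t)) - t = κ * t := by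
    rw [← id1]; ring
  have i2 : t - θ * t - 3 * (η * (θ * t)) = κ * t := by
    rw [← id2]; ring
  have htκ' : 100 ≤ κ * t := by linarith
  refine ⟨hx1, ?_, ?_⟩
  · rw [e1]
    linarith
  · rw [e2]
    have h3n : 3 * n + 2 ≤ t := by
      have h1 : x * 66 ≤ x * L := mul_le_mul_of_nonneg_left hL66 hx0.le
      have h2 : θ * t ≤ 3 / 4 * t := mul_le_mul_of_nonneg_right hθ2 ht0.le
      linarith
    have h4 : Real.log (3 * n + 2) ≤ L := by
      rw [← hLt]
      exact Real.log_le_log (by linarith) h3n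
    have h5 : (3 * n + 2) * Real.log (3 * n + 2) ≤ (3 * n + 2) * L :=
      mul_le_mul_of_nonneg_left h4 (by linarith)
    have h6 : (3 * n + 2) * L = 3 * (n * L) + 2 * L := by ring
    linarith

/-- Existence of a suitable level `n`. -/
lemma asym {η : ℝ} (h0 : 0 < η) (h1 : η < 1 / 9) :
    ∀ᶠ t : ℝ in atTop, ∀ D : ℕ, 1 ≤ D → (D : ℝ) ≤ t ^ (1 / 3 : ℝ) → ∃ n : ℕ, 0 < n ∧ D ∣ n ∧
      Real.log 8 + t + 2 * t ^ η + (6 * n + 6) * (η * Real.log t) <
        2 * (n * Real.log n - n) ∧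
      Real.log 64 + 3 * t ^ η + (3 * n + 2) * Real.log (3 * n + 2) +
        (3 * n + 3) * (η * Real.log t) < (t - 1) + 2 * (n * Real.log n - n) := by
  set θ : ℝ := 2 / (3 * (1 - η)) with hθ
  have hη1 : (0 : ℝ) < 1 - η := by linarith
  have hθ0 : 0 < θ := by positivity
  have hθ1 : 2 / 3 ≤ θ := by
    rw [hθ, div_le_div_iff₀ (by norm_num) (by positivity)]; linarith
  have hθ2 : θ ≤ 3 / 4 := by
    rw [hθ, div_le_div_iff₀ (by positivity) (by norm_num)]; linarith
  set κ : ℝ := (1 - 9 * η) / (3 * (1 - η)) with hκ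
  have hκ0 : 0 < κ := div_pos (by linarith) (by linarith)
  have id1 : 2 * θ - 6 * η * θ - 1 = κ := by
    rw [hθ, hκ]; field_simp; ring
  have id2 : 1 - θ * (1 + 3 * η) = κ := by
    rw [hθ, hκ]; field_simp; ring
  have hlog : Tendsto Real.log atTop atTop := Real.tendsto_log_atTop
  -- elementary asymptotics
  have a1 := ev_rpow_le (r := η) (c := κ / 100) (by linarith) (by positivity)
  have a2 := ev_rpow_le (r := 2 / 3) (c := κ / 100) (by norm_num) (by positivity)
  have a2' := ev_rpow_le (r := 2 / 3) (c := 1 / 100) (by norm_num) (by positivity)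
  have a3 := ev_log_le_rpow (r := 1 / 3) (by norm_num)
  have a4 : ∀ᶠ t : ℝ in atTop, Real.log (Real.log t) ≤ (κ / (100 * θ)) * Real.log t :=
    hlog.eventually (ev_log_le_mul (by positivity))
  have a5 : ∀ᶠ t : ℝ in atTop, (1 - Real.log θ) ≤ (κ / (100 * θ)) * Real.log t := by
    have := hlog.eventually (eventually_ge_atTop ((1 - Real.log θ) / (κ / (100 * θ))))
    filter_upwards [this] with t ht
    rw [div_le_iff₀ (by positivity)] at ht
    linarith
  have a6 : ∀ᶠ t : ℝ in atTop, 66 ≤ Real.log t := hlog.eventually (eventually_ge_atTop _)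
  have a8 : ∀ᶠ t : ℝ in atTop, 100 / κ ≤ t := eventually_ge_atTop _
  filter_upwards [a1, a2, a2', a3, a4, a5, a6, a8, eventually_ge_atTop 100] with
    t b1 b2 b2' b3 b4 b5 b6 b8 ht100 D hD1 hD3
  have ht0 : 0 < t := by linarith
  have ht1 : 1 ≤ t := by linarith
  set L := Real.log t with hL
  have hL0 : 0 < L := by linarith
  set c := t ^ (1 / 3 : ℝ) with hc
  have hc1 : 1 ≤ c := Real.one_le_rpow ht1 (by norm_num)
  have hcc : t ^ (2 / 3 : ℝ) = c * c := by
    rw [hc, ← Real.rpow_add ht0]; norm_num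
  rw [hcc] at b2 b2'
  have hDpos : (0 : ℝ) < D := by exact_mod_cast hD1
  have b8' : 100 ≤ t * κ := by rwa [div_le_iff₀ hκ0] at b8
  -- the level
  set x := θ * t / L with hx
  have hxL : x * L = θ * t := by rw [hx]; field_simp
  have hx0 : 0 < x := by positivity
  have m1 : x / D ≤ (⌈x / D⌉₊ : ℝ) := Nat.le_ceil _
  have m2 : ((⌈x / D⌉₊ : ℕ) : ℝ) < x / D + 1 := Nat.ceil_lt_add_one (by positivity)
  generalize ⌈x / D⌉₊ = m at m1 m2
  have n1 : x ≤ ((D * m : ℕ) : ℝ) := by
    push_cast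
    rw [div_le_iff₀ hDpos] at m1
    linarith
  have n2 : ((D * m : ℕ) : ℝ) ≤ x + c := by
    push_cast
    have : (D : ℝ) * m ≤ D * (x / D + 1) := mul_le_mul_of_nonneg_left m2.le hDpos.le
    have e : (D : ℝ) * (x / D + 1) = x + D := by field_simp
    linarith
  have hlogx : Real.log x = Real.log θ + L - Real.log L := by
    rw [hx, Real.log_div (by positivity) hL0.ne', Real.log_mul hθ0.ne' ht0.ne']
  obtain ⟨x1, c1, c2⟩ := core h0 h1 hθ1 hθ2 hκ0 id1 id2 ht0 hc1 b3 b6 b2 b2' b1 hxL n1 n2 hlogx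
    b4 b5 b8' ht100 hL.symm
  refine ⟨D * m, ?_, dvd_mul_right _ _, c1, c2⟩
  have : (0 : ℝ) < ((D * m : ℕ) : ℝ) := by linarith
  exact_mod_cast this

lemma log_factorial_ge {n : ℕ} (hn : 0 < n) :
    (n : ℝ) * Real.log n - n ≤ Real.log (n ! : ℝ) := by
  have hn' : (0 : ℝ) < n := by exact_mod_cast hn
  have h := Real.pow_div_factorial_le_exp (n : ℝ) (by positivity) n
  have hf : (0 : ℝ) < (n ! : ℝ) := by positivity
  rw [div_le_iff₀ hf] at h
  have h2 := Real.log_le_log (by positivity) h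
  rw [Real.log_pow, Real.log_mul (Real.exp_pos _).ne' hf.ne', Real.log_exp] at h2
  linarith

lemma log_factorial_le {n : ℕ} (hn : 0 < n) :
    Real.log (n ! : ℝ) ≤ (n : ℝ) * Real.log n := by
  have hn' : (0 : ℝ) < n := by exact_mod_cast hn
  rw [← Real.log_pow]
  refine Real.log_le_log (by positivity) ?_
  exact_mod_cast Nat.factorial_le_pow n

/-- Three exceptional integers cannot lie in a short window. -/
theorem window {η : ℝ} (h0 : 0 < η) (h1 : η < 1 / 9) :
    ∃ K : ℕ, ∀ k a b : ℕ, K ≤ k → 0 < a → a < b → (b : ℝ) ≤ (k : ℝ) ^ η →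
      Exceptional k → Exceptional (k + a) → Exceptional (k + b) → False := by
  have hev := tendsto_natCast_atTop_atTop.eventually (asym h0 h1)
  obtain ⟨K, hK⟩ := eventually_atTop.1 hev
  refine ⟨max K 1, fun k a b hk ha hab hb e0 e1 e2 => ?_⟩
  have hkK : K ≤ k := (le_max_left _ _).trans hk
  have hk1 : 1 ≤ k := (le_max_right _ _).trans hk
  have hkR : (1 : ℝ) ≤ k := by exact_mod_cast hk1
  have hk0 : (0 : ℝ) < k := by linarith
  set D := a * b * (b - a) with hD
  have hD1 : 1 ≤ D := Nat.mul_pos (Nat.mul_pos ha (ha.trans hab)) (Nat.sub_pos_of_lt hab)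
  have hb0 : (0 : ℝ) < b := by exact_mod_cast ha.trans hab
  have hb1 : (1 : ℝ) ≤ b := by exact_mod_cast (show 1 ≤ b by omega)
  have hD3 : (D : ℝ) ≤ (k : ℝ) ^ (1 / 3 : ℝ) := by
    have hD2 : D ≤ b * b * b := by
      rw [hD]
      exact Nat.mul_le_mul (Nat.mul_le_mul hab.le le_rfl) (Nat.sub_le _ _)
    have hD2' : (D : ℝ) ≤ (b : ℝ) * b * b := by exact_mod_cast hD2
    have h3 : (b : ℝ) * b * b ≤ (k : ℝ) ^ η * (k : ℝ) ^ η * (k : ℝ) ^ η := by gcongr
    have h4 : (k : ℝ) ^ η * (k : ℝ) ^ η * (k : ℝ) ^ η = (k : ℝ) ^ (3 * η) := by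
      rw [← Real.rpow_add hk0, ← Real.rpow_add hk0]; congr 1; ring
    have h5 : (k : ℝ) ^ (3 * η) ≤ (k : ℝ) ^ (1 / 3 : ℝ) :=
      Real.rpow_le_rpow_of_exponent_le hkR (by linarith)
    linarith
  obtain ⟨n, hn0, hDn, i1, i2⟩ := hK k hkK D hD1 hD3
  have hcop : Nat.Coprime (n + 1) (a * b * (b - a)) := by
    have : Nat.Coprime (n + 1) n := by simp
    exact this.coprime_dvd_right hDn
  obtain ⟨q, hq0, hq1, hq2⟩ := e0.exists_int hk1
  obtain ⟨p1, hp0, hp1, hp2⟩ := e1.exists_int (by omega)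
  obtain ⟨p2, hr0, hr1, hr2⟩ := e2.exists_int (by omega)
  set y := 2 * Real.exp ((k : ℝ) - Real.eulerMascheroniConstant) with hy
  have hy0 : 0 < y := by positivity
  have ya : ∀ c : ℕ, 2 * Real.exp (((k + c : ℕ) : ℝ) - Real.eulerMascheroniConstant) =
      Real.exp c * y := by
    intro c
    rw [hy]
    push_cast
    rw [show (k : ℝ) + c - Real.eulerMascheroniConstant =
      c + ((k : ℝ) - Real.eulerMascheroniConstant) by ring, Real.exp_add]
    ring
  rw [ya a] at hp1 hp2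
  rw [ya b] at hr1 hr2
  -- the approximation quality
  have hea : ∀ {c : ℕ}, c ≤ b → Real.exp (c : ℝ) ≤ Real.exp (b : ℝ) := fun {c} hc =>
    Real.exp_le_exp.2 (by exact_mod_cast hc)
  have he1 : ∀ c : ℕ, 1 ≤ Real.exp (c : ℝ) := fun c => Real.one_le_exp (by positivity)
  have qual : ∀ {c : ℕ} {p : ℤ}, c ≤ b → (p : ℝ) ≤ Real.exp c * y →
      Real.exp c * y ≤ p + 4 / (Real.exp c * y) →
      |Real.exp c * q - p| ≤ 4 * Real.exp b / y := by
    intro c p hc hpa hpb
    have hec := hea hc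
    have h1c := he1 c
    have hbb := he1 b
    have t1 : 4 / (Real.exp c * y) ≤ 4 * Real.exp b / y := by
      rw [div_le_div_iff₀ (by positivity) hy0]
      have : (1 : ℝ) * 1 ≤ Real.exp b * Real.exp c := mul_le_mul hbb h1c (by norm_num) (by positivity)
      nlinarith
    have t2 : Real.exp c * (4 / y) ≤ 4 * Real.exp b / y := by
      rw [mul_div_assoc', div_le_div_iff_of_pos_right hy0]
      linarith
    have t3 : Real.exp c * q ≤ Real.exp c * y := mul_le_mul_of_nonneg_left hq1 (by positivity)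
    have t4 : Real.exp c * y ≤ Real.exp c * (q + 4 / y) :=
      mul_le_mul_of_nonneg_left hq2 (by positivity)
    rw [mul_add] at t4
    rw [abs_le]
    constructor <;> linarith
  have g1 := qual hab.le hp1 hp2
  have g2 := qual le_rfl hr1 hr2
  refine gap_principle hab hn0 hcop hq0 g1 g2 ?_
  -- size estimates
  have hlogb : Real.log b ≤ η * Real.log k := by
    rw [← Real.log_rpow hk0]
    exact Real.log_le_log hb0 hb
  have hfn : (0 : ℝ) < (n ! : ℝ) := by positivity
  have hfM : (0 : ℝ) < ((3 * n + 2)! : ℝ) := by positivity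
  have hlogy1 : Real.log y ≤ Real.log 2 + k := by
    rw [hy, Real.log_mul (by norm_num) (Real.exp_pos _).ne', Real.log_exp]
    have := Real.one_half_lt_eulerMascheroniConstant
    linarith
  have hlogy2 : (k : ℝ) - 1 ≤ Real.log y := by
    rw [hy, Real.log_mul (by norm_num) (Real.exp_pos _).ne', Real.log_exp]
    have := Real.eulerMascheroniConstant_lt_two_thirds
    have := Real.log_pos (show (1 : ℝ) < 2 by norm_num)
    linarith
  have lf1 := log_factorial_ge hn0
  have lf2 := log_factorial_le (n := 3 * n + 2) (by omega)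
  push_cast at lf2
  have hM1 : (0 : ℝ) ≤ 6 * n + 6 := by positivity
  have hM2 : (0 : ℝ) ≤ 3 * n + 3 := by positivity
  have s1 : 4 * y * (Real.exp b) ^ 2 * (b : ℝ) ^ (6 * n + 6) < (n ! : ℝ) ^ 2 := by
    rw [← Real.log_lt_log_iff (by positivity) (by positivity)]
    rw [Real.log_mul (by positivity) (by positivity), Real.log_mul (by positivity) (by positivity),
      Real.log_mul (by positivity) (by positivity), Real.log_pow, Real.log_pow, Real.log_pow,
      Real.log_exp]
    push_cast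
    have h8 : Real.log 8 = Real.log 4 + Real.log 2 := by
      rw [← Real.log_mul (by norm_num) (by norm_num)]; norm_num
    have hb' := mul_le_mul_of_nonneg_left hlogb hM1
    linarith
  have s2 : 64 * (Real.exp b) ^ 3 * ((3 * n + 2)! : ℝ) * (b : ℝ) ^ (3 * n + 3) <
      y * (n ! : ℝ) ^ 2 := by
    rw [← Real.log_lt_log_iff (by positivity) (by positivity)]
    rw [Real.log_mul (by positivity) (by positivity), Real.log_mul (by positivity) (by positivity),
      Real.log_mul (by positivity) (by positivity), Real.log_mul (by positivity) (by positivity),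
      Real.log_pow, Real.log_pow, Real.log_pow, Real.log_exp]
    push_cast
    have hb' := mul_le_mul_of_nonneg_left hlogb hM2
    linarith
  have p1' : 2 * (q : ℝ) * (Real.exp b * (b : ℝ) ^ (3 * n + 3) / (n ! : ℝ)) ^ 2 < 1 / 2 := by
    have : 2 * (q : ℝ) * (Real.exp b * (b : ℝ) ^ (3 * n + 3) / (n ! : ℝ)) ^ 2 ≤
        2 * y * (Real.exp b * (b : ℝ) ^ (3 * n + 3) / (n ! : ℝ)) ^ 2 := by gcongr
    refine this.trans_lt ?_
    rw [div_pow, mul_div_assoc', div_lt_iff₀ (by positivity)]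
    have e : 2 * y * (Real.exp b * (b : ℝ) ^ (3 * n + 3)) ^ 2 =
        (4 * y * (Real.exp b) ^ 2 * (b : ℝ) ^ (6 * n + 6)) / 2 := by
      rw [mul_pow, ← pow_mul, show (3 * n + 3) * 2 = 6 * n + 6 by ring]; ring
    rw [e]
    linarith
  have p2' : 4 * (4 * Real.exp b / y) * (Real.exp b * ((3 * n + 2)! : ℝ) / (n ! : ℝ)) *
        (Real.exp b * (b : ℝ) ^ (3 * n + 3) / (n ! : ℝ)) < 1 / 2 := by
    have e : 4 * (4 * Real.exp b / y) * (Real.exp b * ((3 * n + 2)! : ℝ) / (n ! : ℝ)) *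
        (Real.exp b * (b : ℝ) ^ (3 * n + 3) / (n ! : ℝ)) =
        (64 * (Real.exp b) ^ 3 * ((3 * n + 2)! : ℝ) * (b : ℝ) ^ (3 * n + 3)) /
          (4 * (y * (n ! : ℝ) ^ 2)) := by
      field_simp; ring
    rw [e, div_lt_iff₀ (by positivity)]
    have : 0 < y * (n ! : ℝ) ^ 2 := by positivity
    linarith
  linarith

end Pool.Agent.LibHarmonic
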