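import Mathlib
import Pool.Agent.LibHarmonic.Window

/-!
Counting: a set of integers with at most two elements in each window `[k, k + k ^ η]`
has counting function `O(N ^ (1 - η))`.
-/

namespace Pool.Agent.LibHarmonic

open Finset

/-- The number of elements of `P` in `(M, 2 M]`. -/
lemma block_bound {P : ℕ → Prop} [DecidablePred P] {η : ℝ} (h0 : 0 < η) (h1 : η < 1) {K : ℕ}
    (hP : ∀ k a b : ℕ, K ≤ k → 0 < a → a < b → (b : ℝ) ≤ (k : ℝ) ^ η →
      P k → P (k + a) → P (k + b) → False) {M : ℕ} (hM1 : 1 ≤ M) (hMK : K ≤ M) :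
    (((Ioc M (2 * M)).filter P).card : ℝ) ≤ 8 * (M : ℝ) ^ (1 - η) := by
  have hM0 : (0 : ℝ) < M := by exact_mod_cast hM1
  have hMR : (1 : ℝ) ≤ M := by exact_mod_cast hM1
  have hMη1 : 1 ≤ (M : ℝ) ^ η := Real.one_le_rpow hMR h0.le
  set h := ⌊(M : ℝ) ^ η⌋₊ with hh
  have hh1 : 1 ≤ h := Nat.one_le_floor_iff _ |>.2 hMη1
  have hh2 : (h : ℝ) ≤ (M : ℝ) ^ η := Nat.floor_le (by positivity)
  have hh3 : (M : ℝ) ^ η < h + 1 := Nat.lt_floor_add_one _
  have hhR : (1 : ℝ) ≤ h := by exact_mod_cast hh1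
  set s := (Ioc M (2 * M)).filter P with hs
  -- fibres of `k ↦ k / h`
  have hfib : ∀ c ∈ s.image (fun k => k / h), (s.filter (fun k => k / h = c)).card ≤ 2 := by
    intro c _
    by_contra hc
    push Not at hc
    obtain ⟨x, y, z, hx, hy, hz, hxy, hxz, hyz⟩ := (Finset.two_lt_card_iff).1 hc
    -- order the three elements
    have key : ∀ x y z : ℕ, x ∈ s.filter (fun k => k / h = c) → y ∈ s.filter (fun k => k / h = c) →
        z ∈ s.filter (fun k => k / h = c) → x < y → y < z → False := by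
      intro x y z hx hy hz hxy hyz
      simp only [hs, mem_filter, mem_Ioc] at hx hy hz
      have hzx : z < x + h := by
        have h3 : z / h = x / h := by rw [hz.2, hx.2]
        have h4 : z < h * (z / h) + h := by
          have h41 := Nat.div_add_mod z h
          have h42 := Nat.mod_lt z hh1
          omega
        have h5 : h * (x / h) ≤ x := Nat.mul_div_le x h
        rw [h3] at h4
        omega
      refine hP x (y - x) (z - x) (by omega) (by omega) (by omega) ?_ hx.1.2 ?_ ?_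
      · have h6 : ((z - x : ℕ) : ℝ) ≤ h := by exact_mod_cast (by omega : z - x ≤ h)
        refine h6.trans (hh2.trans ?_)
        exact Real.rpow_le_rpow hM0.le (by exact_mod_cast hx.1.1.1.le) h0.le
      · rw [show x + (y - x) = y by omega]; exact hy.1.2
      · rw [show x + (z - x) = z by omega]; exact hz.1.2
    rcases lt_trichotomy x y with h1 | h1 | h1
    · rcases lt_trichotomy y z with h2 | h2 | h2
      · exact key x y z hx hy hz h1 h2
      · exact hyz h2
      · rcases lt_trichotomy x z with h3 | h3 | h3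
        · exact key x z y hx hz hy h3 h2
        · exact hxz h3
        · exact key z x y hz hx hy h3 h1
    · exact hxy h1
    · rcases lt_trichotomy x z with h2 | h2 | h2
      · exact key y x z hy hx hz h1 h2
      · exact hxz h2
      · rcases lt_trichotomy y z with h3 | h3 | h3
        · exact key y z x hy hz hx h3 h2
        · exact hyz h3
        · exact key z y x hz hy hx h3 h1
  have hcard := Finset.card_le_mul_card_image s 2 hfib
  -- the image has few elements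
  have himg : s.image (fun k => k / h) ⊆ Icc (M / h) (2 * M / h) := by
    intro c hc
    rw [mem_image] at hc
    obtain ⟨k, hk, rfl⟩ := hc
    simp only [hs, mem_filter, mem_Ioc] at hk
    rw [mem_Icc]
    exact ⟨Nat.div_le_div_right (by omega), Nat.div_le_div_right hk.1.2⟩
  have himg' := Finset.card_le_card himg
  rw [Nat.card_Icc] at himg'
  have hdiv : 2 * M / h + 1 - M / h ≤ M / h + 2 := by
    have : 2 * M / h ≤ 2 * (M / h) + 1 := by
      have h7 : M < h * (M / h) + h := by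
        have h71 := Nat.div_add_mod M h
        have h72 := Nat.mod_lt M hh1
        omega
      have h8 : 2 * M < h * (2 * (M / h) + 2) := by nlinarith
      have := (Nat.div_lt_iff_lt_mul (by omega : 0 < h)).2 (by rw [mul_comm]; exact h8)
      omega
    omega
  have hsc : s.card ≤ 2 * (M / h + 2) :=
    hcard.trans (Nat.mul_le_mul le_rfl (himg'.trans hdiv))
  have hsR : (s.card : ℝ) ≤ 2 * ((M : ℝ) / h + 2) := by
    have h9 : ((M / h : ℕ) : ℝ) ≤ (M : ℝ) / h := Nat.cast_div_le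
    have h10 : (s.card : ℝ) ≤ 2 * (((M / h : ℕ) : ℝ) + 2) := by exact_mod_cast hsc
    linarith
  have h11 : (M : ℝ) / h ≤ 2 * (M : ℝ) ^ (1 - η) := by
    rw [div_le_iff₀ (by linarith)]
    have h12 : (M : ℝ) = (M : ℝ) ^ (1 - η) * (M : ℝ) ^ η := by
      rw [← Real.rpow_add hM0]; simp
    have h13 : (M : ℝ) ^ η ≤ 2 * h := by linarith
    have h14 : 0 < (M : ℝ) ^ (1 - η) := by positivity
    calc (M : ℝ) = (M : ℝ) ^ (1 - η) * (M : ℝ) ^ η := h12
      _ ≤ (M : ℝ) ^ (1 - η) * (2 * h) := mul_le_mul_of_nonneg_left h13 h14.le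
      _ = 2 * (M : ℝ) ^ (1 - η) * h := by ring
  have h15 : 1 ≤ (M : ℝ) ^ (1 - η) := Real.one_le_rpow hMR (by linarith)
  linarith

theorem count_bound {P : ℕ → Prop} [DecidablePred P] {η : ℝ} (h0 : 0 < η) (h1 : η < 1) {K : ℕ}
    (hP : ∀ k a b : ℕ, K ≤ k → 0 < a → a < b → (b : ℝ) ≤ (k : ℝ) ^ η →
      P k → P (k + a) → P (k + b) → False) :
    ∃ C : ℝ, ∀ N : ℕ, 1 ≤ N →
      (((Icc 1 N).filter P).card : ℝ) ≤ C * (N : ℝ) ^ (1 - η) := by
  set c := 1 - η with hc
  have hc0 : 0 < c := by linarith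
  have h2c : 1 < (2 : ℝ) ^ c := Real.one_lt_rpow (by norm_num) hc0
  set C : ℝ := 8 / ((2 : ℝ) ^ c - 1) with hC
  have hC0 : 0 < C := div_pos (by norm_num) (by linarith)
  -- powers of two times K₁
  obtain ⟨K1, hK1, hK1'⟩ : ∃ K1 : ℕ, 1 ≤ K1 ∧ K ≤ K1 := ⟨max K 1, le_max_right _ _, le_max_left _ _⟩
  have hK1R : (1 : ℝ) ≤ K1 := by exact_mod_cast hK1
  have hind : ∀ j : ℕ, (((Icc 1 (2 ^ j * K1)).filter P).card : ℝ) ≤
      K1 + C * (((2 ^ j * K1 : ℕ) : ℝ)) ^ c := by
    intro j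
    induction j with
    | zero =>
      have h2 : ((Icc 1 (2 ^ 0 * K1)).filter P).card ≤ K1 := by
        refine (Finset.card_filter_le _ _).trans ?_
        simp
      have h3 : (((Icc 1 (2 ^ 0 * K1)).filter P).card : ℝ) ≤ K1 := by exact_mod_cast h2
      have h4 : 0 ≤ C * (((2 ^ 0 * K1 : ℕ) : ℝ)) ^ c := by positivity
      linarith
    | succ j ih =>
      set M := 2 ^ j * K1 with hM
      have hM1 : 1 ≤ M := Nat.mul_pos (by positivity) hK1
      have hMK : K ≤ M := hK1'.trans (Nat.le_mul_of_pos_left _ (by positivity))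
      have hM2 : 2 ^ (j + 1) * K1 = 2 * M := by rw [hM]; ring
      rw [hM2]
      have hsplit : (Icc 1 (2 * M)).filter P ⊆ (Icc 1 M).filter P ∪ (Ioc M (2 * M)).filter P := by
        intro k hk
        simp only [mem_filter, mem_Icc, mem_union, mem_Ioc] at hk ⊢
        rcases le_or_gt k M with h | h
        · left; exact ⟨⟨hk.1.1, h⟩, hk.2⟩
        · right; exact ⟨⟨h, hk.1.2⟩, hk.2⟩
      have h5 := (Finset.card_le_card hsplit).trans (Finset.card_union_le _ _)
      have h6 : (((Icc 1 (2 * M)).filter P).card : ℝ) ≤ (((Icc 1 M).filter P).card : ℝ) +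
          (((Ioc M (2 * M)).filter P).card : ℝ) := by exact_mod_cast h5
      have h7 := block_bound h0 h1 hP hM1 hMK
      rw [← hc] at h7
      have hM0 : (0 : ℝ) ≤ M := by positivity
      have h8 : ((2 * M : ℕ) : ℝ) ^ c = (2 : ℝ) ^ c * (M : ℝ) ^ c := by
        push_cast
        rw [Real.mul_rpow (by norm_num) hM0]
      rw [h8]
      have h9 : C * ((2 : ℝ) ^ c * (M : ℝ) ^ c) = C * (M : ℝ) ^ c + 8 * (M : ℝ) ^ c := by
        have : C * ((2 : ℝ) ^ c - 1) = 8 := by
          rw [hC]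
          exact div_mul_cancel₀ _ (sub_pos.2 h2c).ne'
        linear_combination (M : ℝ) ^ c * this
      rw [h9]
      linarith
  refine ⟨K1 + C * (2 * K1 : ℝ) ^ c, fun N hN => ?_⟩
  have hNR : (1 : ℝ) ≤ N := by exact_mod_cast hN
  have hN0 : (0 : ℝ) < N := by linarith
  -- choose j with N ≤ 2 ^ j < 2 N
  obtain ⟨j, hj1, hj2⟩ : ∃ j : ℕ, N ≤ 2 ^ j ∧ 2 ^ j ≤ 2 * N := by
    refine ⟨Nat.clog 2 N, Nat.le_pow_clog (by norm_num) N, ?_⟩
    rcases Nat.eq_or_lt_of_le hN with h | h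
    · rw [← h]; simp
    · have := Nat.pow_pred_clog_lt_self (b := 2) (by norm_num) h
      have h3 : 0 < Nat.clog 2 N := Nat.clog_pos (by norm_num) h
      have h4 : 2 ^ Nat.clog 2 N = 2 * 2 ^ (Nat.clog 2 N).pred := by
        rw [← pow_succ']; congr 1; exact (Nat.succ_pred_eq_of_pos h3).symm
      omega
  have hsub : (Icc 1 N).filter P ⊆ (Icc 1 (2 ^ j * K1)).filter P := by
    intro k hk
    simp only [mem_filter, mem_Icc] at hk ⊢
    refine ⟨⟨hk.1.1, hk.1.2.trans (hj1.trans (Nat.le_mul_of_pos_right _ hK1))⟩, hk.2⟩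
  have h10 : (((Icc 1 N).filter P).card : ℝ) ≤ (((Icc 1 (2 ^ j * K1)).filter P).card : ℝ) := by
    exact_mod_cast Finset.card_le_card hsub
  have h11 : (((2 ^ j * K1 : ℕ) : ℝ)) ≤ 2 * K1 * N := by
    have : 2 ^ j * K1 ≤ 2 * N * K1 := Nat.mul_le_mul hj2 le_rfl
    have h12 : ((2 ^ j * K1 : ℕ) : ℝ) ≤ ((2 * N * K1 : ℕ) : ℝ) := by exact_mod_cast this
    push_cast at h12 ⊢
    linarith
  have h13 : (((2 ^ j * K1 : ℕ) : ℝ)) ^ c ≤ (2 * K1 * N : ℝ) ^ c :=
    Real.rpow_le_rpow (by positivity) h11 hc0.le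
  rw [Real.mul_rpow (by positivity) hN0.le] at h13
  have h14 : 1 ≤ (N : ℝ) ^ c := Real.one_le_rpow hNR hc0.le
  have h15 : (K1 : ℝ) ≤ K1 * (N : ℝ) ^ c := by nlinarith
  calc (((Icc 1 N).filter P).card : ℝ) ≤ K1 + C * (((2 ^ j * K1 : ℕ) : ℝ)) ^ c := h10.trans (hind j)
    _ ≤ K1 * (N : ℝ) ^ c + C * ((2 * K1 : ℝ) ^ c * (N : ℝ) ^ c) := by
      refine add_le_add h15 (mul_le_mul_of_nonneg_left h13 hC0.le)
    _ = (K1 + C * (2 * K1 : ℝ) ^ c) * (N : ℝ) ^ c := by ring

end Pool.Agent.LibHarmonic
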